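import Mathlib
import Pool.Agent.Helper8.Classify.Defs

/-!
# Dilation relations of the glued function (MP_e6fa8b_nt, module CL-G1)
-/

namespace Pool.Agent.Helper8.Classify

open Finset Filter Topology Pool.Agent.Helper8.Dilation Pool.Agent.Helper8.Order
  Pool.Agent.Helper8.Transfer

namespace GlD

/-- Two functions mixed by a slow switch. -/
noncomputable def mx (c c' : ℕ → ℝ) (d κ : ℝ) (n : ℕ) : ℝ :=
  if ⌊d * Real.log n⌋ = ⌊d * Real.log n - κ⌋ then c n else c' n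

lemma mx_zero (c c' : ℕ → ℝ) (d : ℝ) (n : ℕ) : mx c c' d 0 n = c n := by
  unfold mx; simp

lemma mx_one (c c' : ℕ → ℝ) (d : ℝ) (n : ℕ) : mx c c' d 1 n = c' n := by
  unfold mx
  rw [if_neg]
  rw [Int.floor_sub_one]
  intro h; omega

lemma gl_eq_mx (c : ℕ → ℕ → ℝ) (δ : ℕ → ℝ) (n : ℕ) :
    gl c δ n = mx (c (I n)) (c (I n + 1)) (δ (I n))
      (((J n - I n * I n : ℕ) : ℝ) / (2 * (I n : ℝ) + 1)) n := rfl

lemma mx_gen {c c' : ℕ → ℝ} {d κ η σ : ℝ} {n n' : ℕ} {y : ℝ} (hy : Real.log n' = Real.log n + y)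
    {m : ℤ} (hm : |d * y - m| ≤ η)
    (h1 : n ∉ Nr d 0 η) (h2 : n ∉ Nr d κ η) (h3 : c n' = σ * c n) (h4 : c' n' = σ * c' n) :
    mx c c' d κ n' = σ * mx c c' d κ n := by
  have e1 : ⌊d * Real.log n' - 0⌋ = ⌊d * Real.log n - 0⌋ + m := by
    apply floor_shift _ _ η _ (not_Nr h1)
    rw [hy]
    have : d * (Real.log n + y) - 0 - (d * Real.log n - 0) - m = d * y - m := by ring
    rw [this]; exact hm
  have e2 : ⌊d * Real.log n' - κ⌋ = ⌊d * Real.log n - κ⌋ + m := by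
    apply floor_shift _ _ η _ (not_Nr h2)
    rw [hy]
    have : d * (Real.log n + y) - κ - (d * Real.log n - κ) - m = d * y - m := by ring
    rw [this]; exact hm
  rw [sub_zero, sub_zero] at e1
  unfold mx
  rw [e1, e2]
  have hiff : (⌊d * Real.log n⌋ + m = ⌊d * Real.log n - κ⌋ + m) ↔
      (⌊d * Real.log n⌋ = ⌊d * Real.log n - κ⌋) := by omega
  by_cases hc : ⌊d * Real.log n⌋ = ⌊d * Real.log n - κ⌋
  · rw [if_pos (hiff.mpr hc), if_pos hc, h3]
  · rw [if_neg (fun h => hc (hiff.mp h)), if_neg hc, h4]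

lemma mx_close {c c' : ℕ → ℝ} {d κ κ' : ℝ} (hκ : κ ≤ κ') {n : ℕ}
    (h : n ∉ Nr d ((κ + κ') / 2) ((κ' - κ) / 2)) : mx c c' d κ n = mx c c' d κ' n := by
  have e : ⌊d * Real.log n - κ⌋ = ⌊d * Real.log n - κ'⌋ := by
    have h1 := not_Nr h ⌊d * Real.log n - κ⌋
    have h2 := Int.floor_le (d * Real.log n - κ)
    have h3 := Int.lt_floor_add_one (d * Real.log n - κ)
    symm
    rw [Int.floor_eq_iff]
    constructor
    · by_contra hcon
      push Not at hcon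
      apply absurd h1
      rw [not_lt, abs_le]
      constructor <;> linarith
    · linarith
  unfold mx
  rw [e]

/-- Local structure of `gl`. -/
lemma window_gl (c : ℕ → ℕ → ℝ) (δ : ℕ → ℝ) (ε : ℝ) (hε : 0 < ε) (hε1 : ε ≤ 1) (C : ℕ) (i0 : ℕ) :
    ∀ᶠ N : ℕ in atTop, ∃ i : ℕ, i0 ≤ i ∧ 4 ^ (i ^ 4) ≤ N ∧ N ≤ 4 ^ ((i + 1) ^ 4 + i) ∧
      ∃ κ : ℝ, 0 ≤ κ ∧ κ + 1 / (2 * (i : ℝ) + 1) ≤ 1 ∧ ∃ M : ℕ, ∀ n : ℕ, ε * N ≤ n → n ≤ C * N →
        gl c δ n = mx (c i) (c (i + 1)) (δ i)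
          (if n < M then κ else κ + 1 / (2 * (i : ℝ) + 1)) n := by
  obtain ⟨b, hb⟩ : ∃ b : ℕ, ((C : ℝ) + 1) / ε ≤ 4 ^ b := by
    obtain ⟨b, hb⟩ := pow_unbounded_of_one_lt (((C : ℝ) + 1) / ε) (show (1 : ℝ) < 4 by norm_num)
    exact ⟨b, hb.le⟩
  set i1 := max i0 b with hi1
  have hbig : ∀ᶠ N : ℕ in atTop, ((4 ^ (i1 ^ 4) : ℕ) : ℝ) + 1 ≤ ε * N := by
    have := (tendsto_natCast_atTop_atTop (R := ℝ)).const_mul_atTop hε
    exact this.eventually_ge_atTop _
  filter_upwards [hbig] with N hN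
  have hNpos : (0 : ℝ) < N := by
    by_contra hcon
    push Not at hcon
    have h0 : ε * (N : ℝ) ≤ 0 := mul_nonpos_of_nonneg_of_nonpos hε.le hcon
    have h1 : (0 : ℝ) ≤ ((4 ^ (i1 ^ 4) : ℕ) : ℝ) := by positivity
    linarith
  set n0 := ⌈ε * (N : ℝ)⌉₊ with hn0
  have hn0a : ε * N ≤ n0 := Nat.le_ceil _
  have hn0b : (n0 : ℝ) < ε * N + 1 := Nat.ceil_lt_add_one (by positivity)
  have hn0c : 4 ^ (i1 ^ 4) ≤ n0 := by
    have : ((4 ^ (i1 ^ 4) : ℕ) : ℝ) ≤ n0 := by linarith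
    exact_mod_cast this
  have hn0N : n0 ≤ N := by
    apply Nat.ceil_le.mpr
    nlinarith
  have hn01 : 1 ≤ n0 := le_trans (Nat.one_le_pow _ _ (by norm_num)) hn0c
  set t := J n0 with ht
  obtain ⟨ht1, ht2⟩ := J_spec n0 hn01
  have hti : i1 * i1 ≤ t := by
    apply J_ge
    calc 4 ^ (i1 * i1 * (i1 * i1)) = 4 ^ (i1 ^ 4) := by congr 1; ring
      _ ≤ n0 := hn0c
  set i := Nat.sqrt t with hi
  have hi_a : i * i ≤ t := Nat.sqrt_le t
  have hi_b : t < (i + 1) * (i + 1) := Nat.lt_succ_sqrt t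
  have hi1i : i1 ≤ i := Nat.le_sqrt.mpr hti
  have hi0i : i0 ≤ i := (le_max_left _ _).trans hi1i
  have hbi : b ≤ i := (le_max_right _ _).trans hi1i
  have hNle : (N : ℝ) ≤ n0 / ε := by rw [le_div_iff₀ hε]; linarith
  have hinv : 1 / ε ≤ 4 ^ b := by
    refine le_trans ?_ hb
    apply div_le_div_of_nonneg_right _ hε.le
    have : (0 : ℝ) ≤ C := by positivity
    linarith
  have hinvC : (C : ℝ) / ε ≤ 4 ^ b := by
    refine le_trans ?_ hb
    apply div_le_div_of_nonneg_right _ hε.le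
    linarith
  have hn0R : (n0 : ℝ) ≤ 4 ^ ((t + 1) * (t + 1)) := by exact_mod_cast ht2.le
  -- upper bound for `C * N`
  have hCN : ∀ n : ℕ, n ≤ C * N → n < 4 ^ ((t + 1 + 1) * (t + 1 + 1)) := by
    intro n hn
    have h1 : (n : ℝ) ≤ C * N := by exact_mod_cast hn
    have h2 : (n : ℝ) ≤ 4 ^ b * 4 ^ ((t + 1) * (t + 1)) := by
      calc (n : ℝ) ≤ C * N := h1
        _ ≤ C * (n0 / ε) := mul_le_mul_of_nonneg_left hNle (by positivity)
        _ = C / ε * n0 := by ring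
        _ ≤ 4 ^ b * 4 ^ ((t + 1) * (t + 1)) := mul_le_mul hinvC hn0R (by positivity) (by positivity)
    have h3 : (n : ℝ) < 4 ^ ((t + 1 + 1) * (t + 1 + 1)) := by
      refine lt_of_le_of_lt h2 ?_
      rw [← pow_add]
      apply pow_lt_pow_right₀ (by norm_num)
      have hit : i ≤ t := (Nat.le_mul_self i).trans hi_a
      have : (t + 1 + 1) * (t + 1 + 1) = (t + 1) * (t + 1) + 2 * t + 3 := by ring
      omega
    exact_mod_cast h3
  refine ⟨i, hi0i, ?_, ?_, ((t - i * i : ℕ) : ℝ) / (2 * i + 1), by positivity, ?_,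
    4 ^ ((t + 1) * (t + 1)), ?_⟩
  · calc 4 ^ (i ^ 4) = 4 ^ ((i * i) * (i * i)) := by congr 1; ring
      _ ≤ 4 ^ (t * t) := Nat.pow_le_pow_right (by norm_num) (Nat.mul_le_mul hi_a hi_a)
      _ ≤ n0 := ht1
      _ ≤ N := hn0N
  · have h1 : (N : ℝ) ≤ 4 ^ ((i + 1) ^ 4 + i) := by
      calc (N : ℝ) ≤ n0 / ε := hNle
        _ = 1 / ε * n0 := by ring
        _ ≤ 4 ^ b * 4 ^ ((t + 1) * (t + 1)) := mul_le_mul hinv hn0R (by positivity) (by positivity)
        _ = 4 ^ (b + (t + 1) * (t + 1)) := by rw [pow_add]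
        _ ≤ 4 ^ ((i + 1) ^ 4 + i) := by
            apply pow_le_pow_right₀ (by norm_num)
            have h2 : (t + 1) * (t + 1) ≤ ((i + 1) * (i + 1)) * ((i + 1) * (i + 1)) :=
              Nat.mul_le_mul hi_b hi_b
            have h3 : ((i + 1) * (i + 1)) * ((i + 1) * (i + 1)) = (i + 1) ^ 4 := by ring
            omega
    exact_mod_cast h1
  · rw [← add_div, div_le_one (by positivity)]
    have : t - i * i + 1 ≤ 2 * i + 1 := by
      have : (i + 1) * (i + 1) = i * i + 2 * i + 1 := by ring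
      omega
    exact_mod_cast this
  · intro n hn1 hn2
    have hnn0 : n0 ≤ n := Nat.ceil_le.mpr hn1
    have hJ1 : t ≤ J n := J_mono hnn0
    have hJ2 : J n ≤ t + 1 := J_lt n (t + 1) (by omega) (hCN n hn2)
    split_ifs with hM
    · have hJ : J n = t := le_antisymm (J_lt n t (by omega) hM) hJ1
      have hI : I n = i := by unfold I; rw [hJ]
      rw [gl_eq_mx, hI, hJ]
    · push Not at hM
      have hJ : J n = t + 1 := le_antisymm hJ2 (J_ge n (t + 1) hM)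
      have hκ : ((t - i * i : ℕ) : ℝ) / (2 * i + 1) + 1 / (2 * (i : ℝ) + 1)
          = ((t + 1 - i * i : ℕ) : ℝ) / (2 * i + 1) := by
        rw [← add_div]
        congr 1
        rw [show t + 1 - i * i = (t - i * i) + 1 by omega]
        push_cast; ring
      rw [hκ]
      by_cases hcase : t + 1 < (i + 1) * (i + 1)
      · have hI : I n = i := by
          unfold I; rw [hJ]
          apply le_antisymm
          · exact Nat.lt_succ_iff.mp (Nat.sqrt_lt.mpr hcase)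
          · exact Nat.le_sqrt.mpr (by omega)
        rw [gl_eq_mx, hI, hJ]
      · have hte : t + 1 = (i + 1) * (i + 1) := by omega
        have hI : I n = i + 1 := by
          unfold I; rw [hJ, hte, Nat.sqrt_eq]
        rw [gl_eq_mx, hI, hJ, hte, Nat.sub_self, Nat.cast_zero, zero_div, mx_zero]
        have h1 : (i + 1) * (i + 1) - i * i = 2 * i + 1 := by
          have : (i + 1) * (i + 1) = i * i + (2 * i + 1) := by ring
          omega
        rw [h1]
        push_cast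
        rw [div_self (by positivity), mx_one]

end GlD

open GlD

/-- G1: dilation relations of the glued function -/
theorem gl_dilate (σ : ℝ) (c : ℕ → ℕ → ℝ) (δ : ℕ → ℝ) (_hc : ∀ i n, c i n = 1 ∨ c i n = -1)
    (slow : ∀ᶠ i : ℕ in atTop, 1 ≤ δ i ∧ δ i ≤ i) (p : ℕ) (hp : p.Prime)
    (kron : ∀ η : ℝ, 0 < η → ∀ᶠ i : ℕ in atTop, ∃ m : ℤ, |δ i * Real.log p - m| ≤ η)
    (hdil : ∀ ε : ℝ, 0 < ε → ∀ᶠ i : ℕ in atTop, ∀ N : ℕ, 4 ^ (i ^ 4) ≤ N →
      N ≤ 4 ^ ((i + 1) ^ 4 + i) → ∀ i' : ℕ, (i' = i ∨ i' = i + 1) →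
      cnt {n | c i' (p * n) ≠ σ * c i' n} N ≤ ε * N) :
    DZ {n | gl c δ (p * n) ≠ σ * gl c δ n} := by
  classical
  intro ε hε
  have hp0 : (0 : ℝ) < p := by exact_mod_cast hp.pos
  have hp1 : (1 : ℝ) ≤ p := by exact_mod_cast hp.one_le
  set ε1 : ℝ := min (ε / 40) (1 / 2) with hε1
  have hε1pos : 0 < ε1 := by positivity
  have hε1a : ε1 ≤ ε / 40 := min_le_left _ _
  have hε1b : ε1 ≤ 1 / 2 := min_le_right _ _
  set η : ℝ := ε1 / 63 with hη
  have hηpos : 0 < η := by positivity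
  have hηb : η ≤ ε1 / 63 := le_rfl
  have hηc : η ≤ 1 / 2 := by linarith
  have hev : ∀ᶠ i : ℕ in atTop, (63 * (1 / (2 * (2 * (i : ℝ) + 1))) * p ≤ ε1) := by
    filter_upwards [tendsto_natCast_atTop_atTop.eventually_ge_atTop (63 * (p : ℝ) / ε1)] with i hi
    rw [div_le_iff₀ hε1pos] at hi
    have h1 : (0 : ℝ) < 2 * (2 * (i : ℝ) + 1) := by positivity
    have h2 : 63 * (1 / (2 * (2 * (i : ℝ) + 1))) * p = 63 * p / (2 * (2 * (i : ℝ) + 1)) := by ring
    rw [h2, div_le_iff₀ h1]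
    nlinarith
  obtain ⟨i0, hi0⟩ := Filter.eventually_atTop.mp
    ((kron η hηpos).and ((slow.and (hdil ε1 hε1pos)).and hev))
  have hlog : ∀ᶠ N : ℕ in atTop, Real.log N * (Real.log p + Real.log N) + 3 ≤ ε1 * N := by
    have h1 : (fun x : ℝ => Real.log x * (Real.log p + Real.log x) + 3) =o[atTop] (fun x : ℝ => x) := by
      have h2 : (fun x : ℝ => Real.log p * Real.log x) =o[atTop] (fun x : ℝ => x) :=
        Real.isLittleO_log_id_atTop.const_mul_left _
      have h3 : (fun x : ℝ => Real.log x ^ 2) =o[atTop] (fun x : ℝ => x) :=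
        Real.isLittleO_pow_log_id_atTop
      have h4 : (fun _ : ℝ => (3 : ℝ)) =o[atTop] (fun x : ℝ => x) :=
        Asymptotics.isLittleO_const_id_atTop 3
      refine ((h2.add h3).add h4).congr_left fun x => ?_
      ring
    have h5 := (h1.comp_tendsto tendsto_natCast_atTop_atTop).bound hε1pos
    filter_upwards [h5] with N hN
    simp only [Function.comp, Real.norm_eq_abs, Nat.abs_cast] at hN
    exact (le_abs_self _).trans hN
  have hbigN : ∀ᶠ N : ℕ in atTop, (2 : ℝ) ≤ ε1 * N := by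
    have := (tendsto_natCast_atTop_atTop (R := ℝ)).const_mul_atTop hε1pos
    exact this.eventually_ge_atTop _
  filter_upwards [window_gl c δ ε1 hε1pos (by linarith) p i0, hlog, hbigN] with N hwin hlogN hN2
  obtain ⟨i, hi, hNa, hNb, κ, hκ0, hκ1, M, hM⟩ := hwin
  obtain ⟨⟨m, hm⟩, ⟨⟨hδ1, hδ2⟩, hdi⟩, hi63⟩ := hi0 i hi
  have hNpos : (0 : ℝ) < N := by
    by_contra hcon
    push Not at hcon
    have : ε1 * (N : ℝ) ≤ 0 := mul_nonpos_of_nonneg_of_nonpos hε1pos.le hcon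
    linarith
  have hN1 : 1 ≤ N := by exact_mod_cast hNpos
  set η1 : ℝ := 1 / (2 * (2 * (i : ℝ) + 1)) with hη1
  have hη1pos : 0 < η1 := by positivity
  have hη1le : η1 ≤ 1 / 2 := by
    rw [hη1, div_le_div_iff₀ (by positivity) (by norm_num)]
    have : (0 : ℝ) ≤ i := by positivity
    linarith
  have h2η1 : 1 / (2 * (i : ℝ) + 1) = 2 * η1 := by rw [hη1]; field_simp
  set a := ⌈ε1 * (N : ℝ)⌉₊ with ha
  have ha1 : ε1 * N ≤ a := Nat.le_ceil _
  have ha2 : (a : ℝ) < ε1 * N + 1 := Nat.ceil_lt_add_one (by positivity)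
  have c5 := hdi N hNa hNb i (Or.inl rfl)
  have c6 := hdi N hNa hNb (i + 1) (Or.inr rfl)
  have hil : (i : ℝ) ≤ Real.log N := i_le_log hNa
  have hlogN0 : 0 ≤ Real.log N := Real.log_nonneg (by exact_mod_cast hN1)
  have hlogp0 : 0 ≤ Real.log p := Real.log_nonneg hp1
  have hδlog : δ i * Real.log N + 3 ≤ ε1 * N := by
    have : δ i * Real.log N ≤ Real.log N * (Real.log p + Real.log N) := by
      have h1 : δ i ≤ Real.log N := hδ2.trans hil
      nlinarith
    linarith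
  have hδlogp : δ i * Real.log ((p * N : ℕ) : ℝ) + 3 ≤ ε1 * N := by
    have h1 : Real.log ((p * N : ℕ) : ℝ) = Real.log p + Real.log N := by
      push_cast
      rw [Real.log_mul hp0.ne' hNpos.ne']
    rw [h1]
    have h2 : δ i ≤ Real.log N := hδ2.trans hil
    have : δ i * (Real.log p + Real.log N) ≤ Real.log N * (Real.log p + Real.log N) :=
      mul_le_mul_of_nonneg_right h2 (by positivity)
    linarith
  have c1 := cnt_Nr (δ i) (κ + η1) η1 hδ1 hη1pos hη1le N hN1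
  have c2 := cnt_Nr (δ i) (κ + η1) η1 hδ1 hη1pos hη1le (p * N) (Nat.mul_pos hp.pos hN1)
  have c3 := cnt_Nr (δ i) 0 η hδ1 hηpos hηc N hN1
  have c4 := cnt_Nr (δ i) κ η hδ1 hηpos hηc N hN1
  have c2' : cnt {n | p * n ∈ Nr (δ i) (κ + η1) η1} N ≤ cnt (Nr (δ i) (κ + η1) η1) (p * N) := by
    apply cnt_inj (fun n => p * n)
    · intro n hn hn0 hnN
      exact ⟨hn, Nat.mul_pos hp.pos hn0, Nat.mul_le_mul_left p hnN⟩
    · intro x y hxy
      exact Nat.eq_of_mul_eq_mul_left hp.pos hxy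
  -- the inclusion
  set D1 := Nr (δ i) (κ + η1) η1 with hD1
  set D2 := {n | p * n ∈ Nr (δ i) (κ + η1) η1} with hD2
  set D3 := Nr (δ i) 0 η with hD3
  set D4 := Nr (δ i) κ η with hD4
  set D5 := {n | c i (p * n) ≠ σ * c i n} with hD5
  set D6 := {n | c (i + 1) (p * n) ≠ σ * c (i + 1) n} with hD6
  have hincl : cnt ({n | gl c δ (p * n) ≠ σ * gl c δ n} ∩ {n | a + 1 ≤ n}) N
      ≤ cnt (((D1 ∪ D2) ∪ (D3 ∪ D4)) ∪ (D5 ∪ D6)) N := by
    apply cnt_mono'
    rintro n hn0 hnN ⟨hn1, hn2⟩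
    have hn2' : a + 1 ≤ n := hn2
    by_contra hcon
    simp only [Set.mem_union, not_or] at hcon
    obtain ⟨⟨⟨b1, b2⟩, b3, b4⟩, b5, b6⟩ := hcon
    apply hn1
    have han : (a : ℝ) ≤ n := by exact_mod_cast (by omega : a ≤ n)
    have hnR : (n : ℝ) ≤ N := by exact_mod_cast hnN
    have hnpn : (n : ℝ) ≤ p * n := le_mul_of_one_le_left (Nat.cast_nonneg n) hp1
    have e1 := hM n (by linarith) (hnN.trans (Nat.le_mul_of_pos_left N hp.pos))
    have e2 := hM (p * n) (by rw [Nat.cast_mul]; linarith) (Nat.mul_le_mul_left p hnN)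
    have key : ∀ n' : ℕ, n' ∉ Nr (δ i) (κ + η1) η1 → ∀ κ' : ℝ, κ' = κ ∨ κ' = κ + 1 / (2 * (i : ℝ) + 1) →
        mx (c i) (c (i + 1)) (δ i) κ' n' = mx (c i) (c (i + 1)) (δ i) κ n' := by
      intro n' hn' κ' hκ'
      rcases hκ' with rfl | rfl
      · rfl
      · symm
        apply mx_close (by rw [h2η1]; linarith)
        have e3 : (κ + (κ + 1 / (2 * (i : ℝ) + 1))) / 2 = κ + η1 := by rw [h2η1]; ring
        have e4 : (κ + 1 / (2 * (i : ℝ) + 1) - κ) / 2 = η1 := by rw [h2η1]; ring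
        rw [e3, e4]; exact hn'
    rw [key n b1 _ (by split_ifs <;> simp)] at e1
    rw [key (p * n) b2 _ (by split_ifs <;> simp)] at e2
    show gl c δ (p * n) = σ * gl c δ n
    rw [e1, e2]
    have b5' : c i (p * n) = σ * c i n := by
      by_contra h
      exact b5 h
    have b6' : c (i + 1) (p * n) = σ * c (i + 1) n := by
      by_contra h
      exact b6 h
    exact mx_gen (κ := κ) (n := n) (n' := p * n) (y := Real.log p)
      (by
        push_cast
        rw [Real.log_mul hp0.ne' (by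
          have : (0 : ℝ) < n := by exact_mod_cast hn0
          exact this.ne')]
        ring)
      hm b3 b4 b5' b6'
  have u1 := cnt_tail {n | gl c δ (p * n) ≠ σ * gl c δ n} N (a + 1)
  have u2 := cnt_union ((D1 ∪ D2) ∪ (D3 ∪ D4)) (D5 ∪ D6) N
  have u3 := cnt_union (D1 ∪ D2) (D3 ∪ D4) N
  have u4 := cnt_union D1 D2 N
  have u5 := cnt_union D3 D4 N
  have u6 := cnt_union D5 D6 N
  have v1 : 63 * η1 * N ≤ ε1 * N := by
    have h1 : 63 * η1 ≤ 63 * η1 * p := le_mul_of_one_le_right (by positivity) hp1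
    exact mul_le_mul_of_nonneg_right (h1.trans hi63) hNpos.le
  have v2 : 63 * η1 * ((p * N : ℕ) : ℝ) ≤ ε1 * N := by
    push_cast
    have := mul_le_mul_of_nonneg_right hi63 hNpos.le
    linarith
  have v3 : 63 * η * N ≤ ε1 * N := by
    apply mul_le_mul_of_nonneg_right _ hNpos.le
    linarith
  have v4 : ε1 * N ≤ ε / 40 * N := mul_le_mul_of_nonneg_right hε1a hNpos.le
  push_cast at u1
  linarith

end Pool.Agent.Helper8.Classify
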