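import Mathlib

/-!
# The second moment argument (MP_e6fa8b_nt, module CL-R1)
-/

namespace Pool.Agent.Helper8.Classify

open Finset

namespace Good

variable {α : Type*} {J : ℕ} (Ω : Fin J → Finset α) (P : Fin J → α → ℝ)

lemma good_one (hP1 : ∀ j, ∑ ω ∈ Ω j, P j ω = 1) :
    ∑ ω ∈ Fintype.piFinset Ω, ∏ i, P i (ω i) = 1 := by
  have h := Finset.prod_univ_sum Ω P
  rw [← h]
  simp [hP1]

lemma good_zero {j j' : Fin J} (hne : j ≠ j') (g h : α → ℝ)
    (hg : ∑ a ∈ Ω j, P j a * g a = 0) :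
    ∑ ω ∈ Fintype.piFinset Ω, (∏ i, P i (ω i)) * (g (ω j) * h (ω j')) = 0 := by
  have key : ∀ ω : Fin J → α, (∏ i, P i (ω i)) * (g (ω j) * h (ω j'))
      = ∏ i, (P i (ω i) * (if i = j then g (ω i) else if i = j' then h (ω i) else 1)) := by
    intro ω
    rw [Finset.prod_mul_distrib]
    congr 1
    have e : ∀ i, (if i = j then g (ω i) else if i = j' then h (ω i) else 1)
        = (if i = j then g (ω i) else 1) * (if i = j' then h (ω i) else 1) := by
      intro i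
      by_cases h1 : i = j
      · subst h1
        simp [hne]
      · simp [h1]
    rw [Finset.prod_congr rfl (fun i _ => e i), Finset.prod_mul_distrib]
    simp
  rw [Finset.sum_congr rfl (fun ω _ => key ω)]
  have h2 := Finset.prod_univ_sum Ω
    (fun i a => P i a * (if i = j then g a else if i = j' then h a else 1))
  rw [← h2]
  refine Finset.prod_eq_zero (Finset.mem_univ j) ?_
  simpa using hg

end Good

open Good in
/-- R1: the second moment argument -/
theorem exists_good {α ι : Type*} {J : ℕ} (Ω : Fin J → Finset α) (P : Fin J → α → ℝ)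
    (hP0 : ∀ j, ∀ ω ∈ Ω j, 0 ≤ P j ω) (hP1 : ∀ j, ∑ ω ∈ Ω j, P j ω = 1)
    (R : Finset ι) (𝒩 : ι → Finset ℕ) (jn : ι → ℕ → Fin J) (ζ : ι → ℕ → α → ℝ)
    (hζ : ∀ r ∈ R, ∀ n ∈ 𝒩 r, ∀ ω ∈ Ω (jn r n), |ζ r n ω| ≤ 2)
    (hmean : ∀ r ∈ R, ∀ n ∈ 𝒩 r, ∑ ω ∈ Ω (jn r n), P (jn r n) ω * ζ r n ω = 0)
    (W : ι → ℕ → ℝ) (co : ι → ℝ) (hco : ∀ r ∈ R, 0 ≤ co r) :
    ∃ ω ∈ Fintype.piFinset Ω,
      ∑ r ∈ R, co r * (∑ n ∈ 𝒩 r, W r n * ζ r n (ω (jn r n))) ^ 2
        ≤ ∑ r ∈ R, co r * (4 * ∑ n ∈ 𝒩 r, ∑ m ∈ (𝒩 r).filter (fun m => jn r m = jn r n),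
            |W r n| * |W r m|) := by
  classical
  set T : (Fin J → α) → ℝ := fun ω =>
    ∑ r ∈ R, co r * (∑ n ∈ 𝒩 r, W r n * ζ r n (ω (jn r n))) ^ 2 with hT
  set B : ℝ := ∑ r ∈ R, co r * (4 * ∑ n ∈ 𝒩 r, ∑ m ∈ (𝒩 r).filter (fun m => jn r m = jn r n),
            |W r n| * |W r m|) with hB
  set μ : (Fin J → α) → ℝ := fun ω => ∏ i, P i (ω i) with hμ
  have hμ0 : ∀ ω ∈ Fintype.piFinset Ω, 0 ≤ μ ω := by
    intro ω hω
    refine Finset.prod_nonneg fun i _ => hP0 i _ ?_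
    exact Fintype.mem_piFinset.1 hω i
  have hμ1 : ∑ ω ∈ Fintype.piFinset Ω, μ ω = 1 := good_one Ω P hP1
  -- the expectation of the total
  have hE : ∑ ω ∈ Fintype.piFinset Ω, μ ω * T ω ≤ B := by
    have h1 : ∑ ω ∈ Fintype.piFinset Ω, μ ω * T ω
        = ∑ r ∈ R, co r * ∑ n ∈ 𝒩 r, ∑ m ∈ 𝒩 r, (W r n * W r m) *
            ∑ ω ∈ Fintype.piFinset Ω, μ ω * (ζ r n (ω (jn r n)) * ζ r m (ω (jn r m))) := by
      calc ∑ ω ∈ Fintype.piFinset Ω, μ ω * T ω
          = ∑ ω ∈ Fintype.piFinset Ω, ∑ r ∈ R, co r * ∑ n ∈ 𝒩 r, ∑ m ∈ 𝒩 r,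
              (W r n * W r m) * (μ ω * (ζ r n (ω (jn r n)) * ζ r m (ω (jn r m)))) := by
            refine Finset.sum_congr rfl fun ω _ => ?_
            rw [hT]
            simp only
            rw [Finset.mul_sum]
            refine Finset.sum_congr rfl fun r _ => ?_
            rw [sq, Finset.sum_mul_sum, Finset.mul_sum, Finset.mul_sum, Finset.mul_sum]
            refine Finset.sum_congr rfl fun n _ => ?_
            rw [Finset.mul_sum, Finset.mul_sum, Finset.mul_sum]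
            refine Finset.sum_congr rfl fun m _ => ?_
            ring
        _ = ∑ r ∈ R, ∑ ω ∈ Fintype.piFinset Ω, co r * ∑ n ∈ 𝒩 r, ∑ m ∈ 𝒩 r,
              (W r n * W r m) * (μ ω * (ζ r n (ω (jn r n)) * ζ r m (ω (jn r m)))) :=
            Finset.sum_comm
        _ = _ := by
            refine Finset.sum_congr rfl fun r _ => ?_
            rw [← Finset.mul_sum, Finset.sum_comm]
            congr 1
            refine Finset.sum_congr rfl fun n _ => ?_
            rw [Finset.sum_comm]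
            refine Finset.sum_congr rfl fun m _ => ?_
            rw [Finset.mul_sum]
    rw [h1, hB]
    refine Finset.sum_le_sum fun r hr => mul_le_mul_of_nonneg_left ?_ (hco r hr)
    rw [Finset.mul_sum]
    refine Finset.sum_le_sum fun n hn => ?_
    rw [Finset.mul_sum, Finset.sum_filter]
    refine Finset.sum_le_sum fun m hm => ?_
    split_ifs with hjj
    · have h2 : |∑ ω ∈ Fintype.piFinset Ω, μ ω * (ζ r n (ω (jn r n)) * ζ r m (ω (jn r m)))| ≤ 4 := by
        calc |∑ ω ∈ Fintype.piFinset Ω, μ ω * (ζ r n (ω (jn r n)) * ζ r m (ω (jn r m)))|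
            ≤ ∑ ω ∈ Fintype.piFinset Ω, |μ ω * (ζ r n (ω (jn r n)) * ζ r m (ω (jn r m)))| :=
              Finset.abs_sum_le_sum_abs _ _
          _ ≤ ∑ ω ∈ Fintype.piFinset Ω, μ ω * 4 := by
              refine Finset.sum_le_sum fun ω hω => ?_
              rw [abs_mul, abs_of_nonneg (hμ0 ω hω)]
              refine mul_le_mul_of_nonneg_left ?_ (hμ0 ω hω)
              rw [abs_mul]
              have a1 := hζ r hr n hn (ω (jn r n)) (Fintype.mem_piFinset.1 hω _)
              have a2 := hζ r hr m hm (ω (jn r m)) (Fintype.mem_piFinset.1 hω _)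
              have a3 := abs_nonneg (ζ r n (ω (jn r n)))
              have a4 := abs_nonneg (ζ r m (ω (jn r m)))
              nlinarith
          _ = 4 := by rw [← Finset.sum_mul, hμ1]; ring
      calc W r n * W r m * ∑ ω ∈ Fintype.piFinset Ω,
            μ ω * (ζ r n (ω (jn r n)) * ζ r m (ω (jn r m)))
          ≤ |W r n * W r m * ∑ ω ∈ Fintype.piFinset Ω,
            μ ω * (ζ r n (ω (jn r n)) * ζ r m (ω (jn r m)))| := le_abs_self _
        _ = |W r n| * |W r m| * |∑ ω ∈ Fintype.piFinset Ω,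
            μ ω * (ζ r n (ω (jn r n)) * ζ r m (ω (jn r m)))| := by rw [abs_mul, abs_mul]
        _ ≤ |W r n| * |W r m| * 4 := mul_le_mul_of_nonneg_left h2 (by positivity)
        _ = 4 * (|W r n| * |W r m|) := by ring
    · have h3 := good_zero Ω P (j := jn r n) (j' := jn r m) (fun h => hjj h.symm)
        (ζ r n) (ζ r m) (hmean r hr n hn)
      rw [hμ]
      simp only
      rw [h3]
      simp
  by_contra hcon
  push Not at hcon
  have hlt : ∑ ω ∈ Fintype.piFinset Ω, μ ω * B < ∑ ω ∈ Fintype.piFinset Ω, μ ω * T ω := by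
    refine Finset.sum_lt_sum (fun ω hω => ?_) ?_
    · exact mul_le_mul_of_nonneg_left (hcon ω hω).le (hμ0 ω hω)
    · have hpos : ∃ ω ∈ Fintype.piFinset Ω, 0 < μ ω := by
        by_contra h
        push Not at h
        have : ∑ ω ∈ Fintype.piFinset Ω, μ ω ≤ 0 := Finset.sum_nonpos h
        linarith
      obtain ⟨ω, hω, h⟩ := hpos
      exact ⟨ω, hω, mul_lt_mul_of_pos_left (hcon ω hω) h⟩
  rw [← Finset.sum_mul, hμ1, one_mul] at hlt
  linarith

end Pool.Agent.Helper8.Classify
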